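import Pool.Agent.Helper15.FC.St2

set_option autoImplicit false

/-!
# Project FC, module MAJ

A one-sided approximation of `log |1 - w|` on the unit disc.
-/

open Polynomial

namespace Pool.Agent.Helper7.FC

open Pool.Agent.Helper15.FC

noncomputable section

/-- `sum_(1≤j≤J) (1/j - j/J^2) w^j` -/
private def LL (J : ℕ) (w : ℂ) : ℂ :=
  ∑ j ∈ Finset.range J, (((1 : ℝ) / (j + 1) - (j + 1) / (J : ℝ) ^ 2 : ℝ) : ℂ) * w ^ (j + 1)

/-- the remaining coefficients -/
private def aa (J j : ℕ) : ℝ := if j ≤ J then (j : ℝ) / (J : ℝ) ^ 2 else 1 / (j : ℝ)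

/-- one Abel step -/
private theorem abel {f : ℕ → ℂ} {s w : ℂ} (h : HasSum f s) :
    HasSum (fun j => f (j + 1) - w * f j) (s - f 0 - w * s) := by
  have h1 : HasSum (fun j => f (j + 1)) (s - f 0) := by
    have := (hasSum_nat_add_iff' (f := f) (g := s) 1).2 h
    simpa using this
  exact h1.sub (h.mul_left w)

private theorem hasSum_aa (J : ℕ) (w : ℂ) (hw : ‖w‖ < 1) :
    HasSum (fun j => ((aa J j : ℝ) : ℂ) * w ^ j) (-Complex.log (1 - w) - LL J w) := by
  have h1 := Complex.hasSum_taylorSeries_neg_log hw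
  have h2 : HasSum (fun j : ℕ => if j ∈ Finset.Icc 1 J then
      (((1 : ℝ) / j - j / (J : ℝ) ^ 2 : ℝ) : ℂ) * w ^ j else 0) (LL J w) := by
    have h3 : LL J w = ∑ j ∈ Finset.Icc 1 J,
        (if j ∈ Finset.Icc 1 J then (((1 : ℝ) / j - j / (J : ℝ) ^ 2 : ℝ) : ℂ) * w ^ j else 0) := by
      have h4 : Finset.Icc 1 J = Finset.Ico 1 (J + 1) := by
        ext x; simp only [Finset.mem_Icc, Finset.mem_Ico]; omega
      rw [Finset.sum_congr rfl (g := fun j : ℕ =>
        (((1 : ℝ) / j - j / (J : ℝ) ^ 2 : ℝ) : ℂ) * w ^ j) (fun j hj => if_pos hj), h4,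
        Finset.sum_Ico_eq_sum_range]
      unfold LL
      refine Finset.sum_congr (by simp) fun j _ => ?_
      rw [show 1 + j = j + 1 by ring]
      push_cast
      ring
    rw [h3]
    exact hasSum_sum_of_ne_finset_zero fun j hj => if_neg hj
  refine (h1.sub h2).congr_fun ?_
  intro j
  by_cases h0 : j = 0
  · subst h0
    simp [aa]
  · have hj0 : ((j : ℕ) : ℂ) ≠ 0 := Nat.cast_ne_zero.2 h0
    by_cases hj : j ≤ J
    · rw [if_pos (Finset.mem_Icc.2 ⟨Nat.one_le_iff_ne_zero.2 h0, hj⟩)]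
      unfold aa
      rw [if_pos hj]
      push_cast
      ring
    · rw [if_neg (fun h => hj (Finset.mem_Icc.1 h).2)]
      unfold aa
      rw [if_neg hj]
      push_cast
      ring

/-- second differences of the coefficients -/
private theorem diff2 (J : ℕ) (hJ : 1 ≤ J) : ∀ N : ℕ, J ≤ N →
    ∑ j ∈ Finset.range N, |aa J (j + 2) - 2 * aa J (j + 1) + aa J j| ≤
      3 / (J : ℝ) ^ 2 - 1 / ((N : ℝ) * (N + 1)) := by
  have hJ0 : (0 : ℝ) < J := by exact_mod_cast hJ
  intro N hN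
  induction N, hN using Nat.le_induction with
  | base =>
    obtain ⟨M, rfl⟩ : ∃ M, J = M + 1 := ⟨J - 1, by omega⟩
    rw [Finset.sum_range_succ]
    have h1 : ∑ j ∈ Finset.range M, |aa (M + 1) (j + 2) - 2 * aa (M + 1) (j + 1) + aa (M + 1) j|
        = 0 := by
      refine Finset.sum_eq_zero fun j hj => ?_
      rw [Finset.mem_range] at hj
      unfold aa
      rw [if_pos (by omega), if_pos (by omega), if_pos (by omega), abs_eq_zero]
      push_cast
      ring
    have h2 : aa (M + 1) (M + 2) - 2 * aa (M + 1) (M + 1) + aa (M + 1) M =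
        -(1 / ((M : ℝ) + 1) ^ 2 + 1 / (((M : ℝ) + 1) * (M + 2))) := by
      unfold aa
      rw [if_neg (by omega), if_pos (by omega), if_pos (by omega)]
      push_cast
      field_simp
      ring
    have hM : (0 : ℝ) ≤ M := Nat.cast_nonneg M
    rw [h1, h2, abs_neg, abs_of_nonneg (by positivity), zero_add]
    push_cast
    have h3 : 1 / (((M : ℝ) + 1) * (M + 1 + 1)) ≤ 1 / ((M : ℝ) + 1) ^ 2 := by
      apply one_div_le_one_div_of_le (by positivity)
      nlinarith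
    have h4 : 1 / (((M : ℝ) + 1) * (M + 2)) = 1 / (((M : ℝ) + 1) * (M + 1 + 1)) := by
      congr 1; ring
    have h5 : 3 / ((M : ℝ) + 1) ^ 2 = 3 * (1 / ((M : ℝ) + 1) ^ 2) := by ring
    rw [h4, h5]
    linarith
  | succ N hN ih =>
    rw [Finset.sum_range_succ]
    have hN0 : (0 : ℝ) < N := by
      have : (J : ℝ) ≤ N := by exact_mod_cast hN
      linarith
    have h1 : aa J N = 1 / (N : ℝ) := by
      unfold aa
      split_ifs with h
      · have : J = N := le_antisymm hN h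
        subst this
        field_simp
      · rfl
    have h2 : aa J (N + 1) = 1 / ((N : ℝ) + 1) := by
      unfold aa
      rw [if_neg (by omega)]
      push_cast
      rfl
    have h3 : aa J (N + 2) = 1 / ((N : ℝ) + 2) := by
      unfold aa
      rw [if_neg (by omega)]
      push_cast
      rfl
    have h4 : aa J (N + 2) - 2 * aa J (N + 1) + aa J N =
        1 / ((N : ℝ) * (N + 1)) - 1 / (((N : ℝ) + 1) * (N + 2)) := by
      rw [h1, h2, h3]
      field_simp
      ring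
    have h5 : (0 : ℝ) ≤ 1 / ((N : ℝ) * (N + 1)) - 1 / (((N : ℝ) + 1) * (N + 2)) := by
      rw [sub_nonneg]
      apply one_div_le_one_div_of_le (by positivity)
      nlinarith
    rw [h4, abs_of_nonneg h5]
    push_cast
    have h6 : 1 / (((N : ℝ) + 1) * (N + 1 + 1)) = 1 / (((N : ℝ) + 1) * (N + 2)) := by
      congr 1; ring
    rw [h6]
    linarith

/-- the inequality far from the singularity, inside the disc -/
private theorem far_in (J : ℕ) (hJ : 1 ≤ J) (w : ℂ) (hw : ‖w‖ < 1) :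
    ‖1 - w‖ ≤ Real.exp (4 / ((J : ℝ) ^ 2 * ‖1 - w‖ ^ 2) - (LL J w).re) := by
  have hJ0 : (0 : ℝ) < J := by exact_mod_cast hJ
  have hpos : 0 < ‖1 - w‖ := by
    rw [norm_pos_iff]
    intro h
    have : w = 1 := by linear_combination -h
    rw [this, norm_one] at hw
    exact lt_irrefl _ hw
  set S : ℂ := -Complex.log (1 - w) - LL J w with hS
  have h1 := hasSum_aa J w hw
  rw [← hS] at h1
  have h2 := abel (w := w) h1
  have h3 := abel (w := w) h2
  have ha0 : aa J 0 = 0 := by simp [aa]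
  have ha1 : aa J 1 = 1 / (J : ℝ) ^ 2 := by
    unfold aa
    rw [if_pos hJ]
    simp
  have h4 : ‖(1 - w) ^ 2 * S - ((1 / (J : ℝ) ^ 2 : ℝ) : ℂ) * w‖ ≤ 3 / (J : ℝ) ^ 2 := by
    have h5 : (1 - w) ^ 2 * S - ((1 / (J : ℝ) ^ 2 : ℝ) : ℂ) * w =
        S - ((aa J 0 : ℝ) : ℂ) * w ^ 0 - w * S -
          (((aa J (0 + 1) : ℝ) : ℂ) * w ^ (0 + 1) - w * (((aa J 0 : ℝ) : ℂ) * w ^ 0)) -
          w * (S - ((aa J 0 : ℝ) : ℂ) * w ^ 0 - w * S) := by
      rw [zero_add, ha0, ha1]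
      push_cast
      ring
    rw [h5]
    refine le_of_tendsto (h3.tendsto_sum_nat.norm) ?_
    filter_upwards [Filter.eventually_ge_atTop J] with N hN
    refine (norm_sum_le _ _).trans ?_
    have h6 : ∑ j ∈ Finset.range N, |aa J (j + 2) - 2 * aa J (j + 1) + aa J j| ≤
        3 / (J : ℝ) ^ 2 := by
      have := diff2 J hJ N hN
      have h7 : (0 : ℝ) ≤ 1 / ((N : ℝ) * (N + 1)) := by positivity
      linarith
    refine (Finset.sum_le_sum fun j _ => ?_).trans h6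
    have h8 : ((aa J (j + 1 + 1) : ℝ) : ℂ) * w ^ (j + 1 + 1) - w * (((aa J (j + 1) : ℝ) : ℂ) *
        w ^ (j + 1)) - w * (((aa J (j + 1) : ℝ) : ℂ) * w ^ (j + 1) -
          w * (((aa J j : ℝ) : ℂ) * w ^ j)) =
        ((aa J (j + 2) - 2 * aa J (j + 1) + aa J j : ℝ) : ℂ) * w ^ (j + 2) := by
      push_cast
      ring
    rw [h8, norm_mul, Complex.norm_real, Real.norm_eq_abs, norm_pow]
    exact mul_le_of_le_one_right (abs_nonneg _) (pow_le_one₀ (norm_nonneg _) hw.le)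
  have h9 : ‖(1 - w) ^ 2 * S‖ ≤ 4 / (J : ℝ) ^ 2 := by
    have h10 : ‖((1 / (J : ℝ) ^ 2 : ℝ) : ℂ) * w‖ ≤ 1 / (J : ℝ) ^ 2 := by
      rw [norm_mul, Complex.norm_real, Real.norm_eq_abs, abs_of_nonneg (by positivity)]
      exact mul_le_of_le_one_right (by positivity) hw.le
    have h11 := norm_add_le ((1 - w) ^ 2 * S - ((1 / (J : ℝ) ^ 2 : ℝ) : ℂ) * w)
      (((1 / (J : ℝ) ^ 2 : ℝ) : ℂ) * w)
    rw [sub_add_cancel] at h11
    have h12 : 3 / (J : ℝ) ^ 2 + 1 / (J : ℝ) ^ 2 = 4 / (J : ℝ) ^ 2 := by ring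
    linarith
  rw [norm_mul, norm_pow] at h9
  have h13 : ‖S‖ ≤ 4 / ((J : ℝ) ^ 2 * ‖1 - w‖ ^ 2) := by
    rw [le_div_iff₀ (by positivity)]
    rw [le_div_iff₀ (by positivity)] at h9
    linarith
  have h14 : -‖S‖ ≤ S.re := (abs_le.1 (Complex.abs_re_le_norm S)).1
  have h15 : S.re = -Real.log ‖1 - w‖ - (LL J w).re := by
    rw [hS, Complex.sub_re, Complex.neg_re, Complex.log_re]
  calc ‖1 - w‖ = Real.exp (Real.log ‖1 - w‖) := (Real.exp_log hpos).symm
    _ ≤ _ := Real.exp_le_exp.2 (by linarith)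

private theorem cont_LL (J : ℕ) : Continuous (LL J) := by
  unfold LL
  fun_prop

/-- the inequality far from the singularity, closed disc -/
private theorem far_cl (J : ℕ) (hJ : 1 ≤ J) (w : ℂ) (hw : ‖w‖ ≤ 1) (hw1 : w ≠ 1) :
    ‖1 - w‖ ≤ Real.exp (4 / ((J : ℝ) ^ 2 * ‖1 - w‖ ^ 2) - (LL J w).re) := by
  have hJ0 : (0 : ℝ) < J := by exact_mod_cast hJ
  have hpos : 0 < ‖1 - w‖ := by
    rw [norm_pos_iff]
    exact fun h => hw1 (by linear_combination -h)
  have hcl : w ∈ closure (Metric.ball (0 : ℂ) 1) := by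
    rw [closure_ball (0 : ℂ) one_ne_zero]
    simpa using hw
  refine ContinuousWithinAt.closure_le (f := fun z => ‖1 - z‖)
    (g := fun z => Real.exp (4 / ((J : ℝ) ^ 2 * ‖1 - z‖ ^ 2) - (LL J z).re)) hcl ?_ ?_ ?_
  · exact (by fun_prop : Continuous (fun z : ℂ => ‖1 - z‖)).continuousWithinAt
  · refine ContinuousAt.continuousWithinAt ?_
    refine ContinuousAt.rexp (ContinuousAt.sub ?_ ?_)
    · refine ContinuousAt.div continuousAt_const ?_ (by positivity)
      exact (by fun_prop : Continuous (fun z : ℂ => (J : ℝ) ^ 2 * ‖1 - z‖ ^ 2)).continuousAt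
    · exact (Complex.continuous_re.comp (cont_LL J)).continuousAt
  · intro z hz
    exact far_in J hJ z (by simpa using hz)

/-- the inequality near the singularity -/
private theorem near_cl (J : ℕ) (hJ : 1 ≤ J) (w : ℂ) (hw : ‖w‖ ≤ 1) (hn : (J : ℝ) * ‖1 - w‖ ≤ 4) :
    ‖1 - w‖ ≤ Real.exp (3 - (LL J w).re) := by
  have hJ0 : (0 : ℝ) < J := by exact_mod_cast hJ
  have h1 : (LL J w).re ≤ 1 + Real.log J := by
    refine (Complex.re_le_norm _).trans ?_
    have h2 : ‖LL J w‖ ≤ ∑ j ∈ Finset.range J, ((1 : ℝ) / (j + 1)) := by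
      unfold LL
      refine (norm_sum_le _ _).trans (Finset.sum_le_sum fun j hj => ?_)
      rw [Finset.mem_range] at hj
      have hj1 : (j : ℝ) + 1 ≤ J := by exact_mod_cast hj
      have hj0 : (0 : ℝ) < (j : ℝ) + 1 := by positivity
      have h3 : ((j : ℝ) + 1) / (J : ℝ) ^ 2 ≤ 1 / ((j : ℝ) + 1) := by
        rw [div_le_div_iff₀ (by positivity) hj0]
        nlinarith
      have h4 : (0 : ℝ) ≤ ((j : ℝ) + 1) / (J : ℝ) ^ 2 := by positivity
      rw [norm_mul, Complex.norm_real, Real.norm_eq_abs, norm_pow, abs_of_nonneg (by linarith)]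
      calc (1 / ((j : ℝ) + 1) - (j + 1) / (J : ℝ) ^ 2) * ‖w‖ ^ (j + 1)
          ≤ 1 / ((j : ℝ) + 1) - (j + 1) / (J : ℝ) ^ 2 :=
            mul_le_of_le_one_right (by linarith) (pow_le_one₀ (norm_nonneg _) hw)
        _ ≤ 1 / ((j : ℝ) + 1) := by linarith
    have h5 := harmonic_le_one_add_log J
    have h6 : ((harmonic J : ℚ) : ℝ) = ∑ j ∈ Finset.range J, ((1 : ℝ) / (j + 1)) := by
      unfold harmonic
      push_cast
      exact Finset.sum_congr rfl fun j _ => by rw [one_div]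
    rw [h6] at h5
    exact h2.trans h5
  have h7 : ‖1 - w‖ ≤ 4 / J := by
    rw [le_div_iff₀ hJ0]
    linarith
  have h8 : (4 : ℝ) ≤ Real.exp 2 := by
    have := Real.add_one_le_exp (1 : ℝ)
    have h9 : Real.exp 2 = Real.exp 1 * Real.exp 1 := by
      rw [← Real.exp_add]; norm_num
    rw [h9]
    nlinarith
  have h10 : Real.exp (2 - Real.log J) = Real.exp 2 / J := by
    rw [Real.exp_sub, Real.exp_log hJ0]
  calc ‖1 - w‖ ≤ 4 / J := h7
    _ ≤ Real.exp 2 / J := by gcongr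
    _ = Real.exp (2 - Real.log J) := h10.symm
    _ ≤ _ := Real.exp_le_exp.2 (by linarith)

/-- geometric sums -/
private def SS (M : ℕ) (w : ℂ) : ℂ := ∑ j ∈ Finset.range M, w ^ j

private theorem SS_succ (M : ℕ) (w : ℂ) : SS (M + 1) w = 1 + w * SS M w := by
  unfold SS
  rw [Finset.sum_range_succ', Finset.mul_sum, pow_zero, add_comm]
  congr 1
  exact Finset.sum_congr rfl fun j _ => by ring

private theorem SS_sq (w : ℂ) (hw : ‖w‖ = 1) (M : ℕ) :
    ‖SS (M + 1) w‖ ^ 2 = (M + 1) +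
      (∑ j ∈ Finset.range M, ((2 * ((M : ℝ) - j) : ℝ) : ℂ) * w ^ (j + 1)).re := by
  induction M with
  | zero => simp [SS]
  | succ M ih =>
    have h1 : ‖SS (M + 1 + 1) w‖ ^ 2 = ‖SS (M + 1) w‖ ^ 2 + 1 + 2 * (w * SS (M + 1) w).re := by
      rw [SS_succ (M + 1)]
      have h2 : ‖(1 : ℂ) + w * SS (M + 1) w‖ ^ 2 =
          1 + ‖w * SS (M + 1) w‖ ^ 2 + 2 * (w * SS (M + 1) w).re := by
        rw [← Complex.normSq_eq_norm_sq, ← Complex.normSq_eq_norm_sq, Complex.normSq_add]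
        simp
      rw [h2, norm_mul, hw, one_mul]
      ring
    rw [h1, ih]
    have h3 : w * SS (M + 1) w = ∑ j ∈ Finset.range (M + 1), w ^ (j + 1) := by
      unfold SS
      rw [Finset.mul_sum]
      exact Finset.sum_congr rfl fun j _ => by ring
    have h4 : ∑ j ∈ Finset.range (M + 1), ((2 * (((M + 1 : ℕ) : ℝ) - j) : ℝ) : ℂ) * w ^ (j + 1) =
        ∑ j ∈ Finset.range M, ((2 * ((M : ℝ) - j) : ℝ) : ℂ) * w ^ (j + 1) +
          2 * ∑ j ∈ Finset.range (M + 1), w ^ (j + 1) := by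
      rw [Finset.mul_sum, Finset.sum_range_succ _ M, Finset.sum_range_succ (fun j => 2 * w ^ (j + 1)),
        ← add_assoc, ← Finset.sum_add_distrib]
      congr 1
      · exact Finset.sum_congr rfl fun j _ => by push_cast; ring
      · push_cast; ring
    rw [h4, h3, Complex.add_re, Complex.mul_re]
    simp only [Complex.re_ofNat, Complex.im_ofNat, zero_mul, sub_zero]
    push_cast
    ring

/-- the sum of the squares -/
private def TT (J : ℕ) (w : ℂ) : ℝ := ∑ M ∈ Finset.range J, ‖SS (M + 1) w‖ ^ 2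

private theorem TT_eq (w : ℂ) (hw : ‖w‖ = 1) (J : ℕ) :
    TT J w = (J : ℝ) * (J + 1) / 2 + (∑ j ∈ Finset.range J,
      ((((J : ℝ) - 1 - j) * ((J : ℝ) - j) : ℝ) : ℂ) * w ^ (j + 1)).re := by
  induction J with
  | zero => simp [TT]
  | succ J ih =>
    have h1 : TT (J + 1) w = TT J w + ‖SS (J + 1) w‖ ^ 2 := by
      unfold TT
      rw [Finset.sum_range_succ]
    rw [h1, ih, SS_sq w hw]
    have h2 : ∑ j ∈ Finset.range (J + 1),
        (((((J + 1 : ℕ) : ℝ) - 1 - j) * (((J + 1 : ℕ) : ℝ) - j) : ℝ) : ℂ) * w ^ (j + 1) =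
        ∑ j ∈ Finset.range J, ((((J : ℝ) - 1 - j) * ((J : ℝ) - j) : ℝ) : ℂ) * w ^ (j + 1) +
          ∑ j ∈ Finset.range J, ((2 * ((J : ℝ) - j) : ℝ) : ℂ) * w ^ (j + 1) := by
      rw [Finset.sum_range_succ, ← Finset.sum_add_distrib]
      have h3 : (((((J + 1 : ℕ) : ℝ) - 1 - (J : ℕ)) * (((J + 1 : ℕ) : ℝ) - (J : ℕ)) : ℝ) : ℂ) *
          w ^ (J + 1) = 0 := by
        push_cast; ring
      rw [h3, add_zero]
      exact Finset.sum_congr rfl fun j _ => by push_cast; ring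
    rw [h2, Complex.add_re]
    push_cast
    ring

private theorem TT_far (w : ℂ) (hw : ‖w‖ = 1) (J : ℕ) (hJ : 1 ≤ J)
    (hf : 4 < (J : ℝ) * ‖1 - w‖) : (J : ℝ) ≤ ‖1 - w‖ ^ 2 * TT J w := by
  have hJ0 : (0 : ℝ) < J := by exact_mod_cast hJ
  have hpos : 0 < ‖1 - w‖ := by
    by_contra h
    have := mul_nonpos_of_nonneg_of_nonpos hJ0.le (not_lt.1 h)
    linarith
  have h1 : ∀ M : ℕ, (1 - w) * SS M w = 1 - w ^ M := fun M => mul_neg_geom_sum w M
  have h2 : ∀ M : ℕ, ‖1 - w‖ ^ 2 * ‖SS M w‖ ^ 2 = 2 - 2 * (w ^ M).re := by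
    intro M
    rw [← mul_pow, ← norm_mul, h1, ← Complex.normSq_eq_norm_sq, Complex.normSq_sub]
    have h3 : Complex.normSq (w ^ M) = 1 := by
      rw [Complex.normSq_eq_norm_sq, norm_pow, hw]; simp
    rw [h3, Complex.normSq_one, one_mul, Complex.conj_re]
    ring
  have h4 : ‖1 - w‖ ^ 2 * TT J w = 2 * J - 2 * (w * SS J w).re := by
    unfold TT
    rw [Finset.mul_sum, Finset.sum_congr rfl fun M _ => h2 (M + 1), Finset.sum_sub_distrib]
    have h5 : w * SS J w = ∑ j ∈ Finset.range J, w ^ (j + 1) := by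
      unfold SS
      rw [Finset.mul_sum]
      exact Finset.sum_congr rfl fun j _ => by ring
    rw [h5, Complex.re_sum, Finset.mul_sum]
    simp
    ring
  have h6 : ‖1 - w‖ * ‖w * SS J w‖ ≤ 2 := by
    rw [norm_mul, hw, one_mul, ← norm_mul, h1]
    refine (norm_sub_le _ _).trans ?_
    rw [norm_pow, hw]
    norm_num
  have h7 : (w * SS J w).re ≤ (J : ℝ) / 2 := by
    refine (Complex.re_le_norm _).trans ?_
    by_contra h
    rw [not_le] at h
    have : ‖1 - w‖ * (J / 2) < ‖1 - w‖ * ‖w * SS J w‖ := mul_lt_mul_of_pos_left h hpos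
    nlinarith
  rw [h4]
  linarith

private theorem TT_near (w : ℂ) (hw : ‖w‖ = 1) (J : ℕ) (hJ : 4 ≤ J)
    (hn : (J : ℝ) * ‖1 - w‖ ≤ 4) : (J : ℝ) ^ 3 / 6144 ≤ TT J w := by
  have hJ0 : (0 : ℝ) < J := by
    have : 0 < J := by omega
    exact_mod_cast this
  have h1 : ∀ j : ℕ, ‖w ^ j - 1‖ ≤ j * ‖1 - w‖ := by
    intro j
    induction j with
    | zero => simp
    | succ j ih =>
      have h2 : w ^ (j + 1) - 1 = w * (w ^ j - 1) + (w - 1) := by ring
      rw [h2]
      refine (norm_add_le _ _).trans ?_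
      rw [norm_mul, hw, one_mul, norm_sub_rev w 1]
      push_cast
      linarith
  have h3 : ∀ M : ℕ, ‖SS M w - M‖ ≤ (M : ℝ) ^ 2 / 2 * ‖1 - w‖ := by
    intro M
    induction M with
    | zero => simp [SS]
    | succ M ih =>
      have h4 : SS (M + 1) w - ((M + 1 : ℕ) : ℂ) = (SS M w - M) + (w ^ M - 1) := by
        unfold SS
        rw [Finset.sum_range_succ]
        push_cast
        ring
      rw [h4]
      refine (norm_add_le _ _).trans ?_
      have h5 := h1 M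
      have h6 : (0 : ℝ) ≤ ‖1 - w‖ := norm_nonneg _
      push_cast
      nlinarith
  obtain ⟨m, hm⟩ : ∃ m, m = J / 4 := ⟨_, rfl⟩
  have hm1 : 4 * m ≤ J := by omega
  have hm2 : J ≤ 8 * m := by omega
  have hmJ : m ≤ J := by omega
  have h7 : ∀ M ∈ Finset.range m, (((M : ℝ) + 1) / 2) ^ 2 ≤ ‖SS (M + 1) w‖ ^ 2 := by
    intro M hM
    rw [Finset.mem_range] at hM
    have hMm : 4 * ((M : ℝ) + 1) ≤ J := by
      have : 4 * (M + 1) ≤ J := by omega
      exact_mod_cast this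
    have h8 := h3 (M + 1)
    push_cast at h8
    have hM0 : (0 : ℝ) < (M : ℝ) + 1 := by positivity
    have h9 : ((M : ℝ) + 1) ^ 2 / 2 * ‖1 - w‖ ≤ ((M : ℝ) + 1) / 2 := by
      have h10 : ((M : ℝ) + 1) * ‖1 - w‖ ≤ 1 := by
        have h11 : 4 * ((M : ℝ) + 1) * ‖1 - w‖ ≤ J * ‖1 - w‖ :=
          mul_le_mul_of_nonneg_right hMm (norm_nonneg _)
        linarith
      nlinarith
    have h12 : ((M : ℝ) + 1) / 2 ≤ ‖SS (M + 1) w‖ := by
      have h13 : ‖((M : ℂ) + 1)‖ = (M : ℝ) + 1 := by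
        have : ((M : ℂ) + 1) = (((M : ℝ) + 1 : ℝ) : ℂ) := by push_cast; rfl
        rw [this, Complex.norm_real, Real.norm_eq_abs, abs_of_pos hM0]
      have h14 := norm_sub_norm_le ((M : ℂ) + 1) (SS (M + 1) w)
      rw [h13, norm_sub_rev] at h14
      linarith
    gcongr
  have h15 : ∀ n : ℕ, (n : ℝ) ^ 3 / 12 ≤ ∑ M ∈ Finset.range n, (((M : ℝ) + 1) / 2) ^ 2 := by
    intro n
    induction n with
    | zero => simp
    | succ n ih =>
      rw [Finset.sum_range_succ]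
      push_cast
      have : (0 : ℝ) ≤ n := Nat.cast_nonneg n
      nlinarith
  have h16 : ∑ M ∈ Finset.range m, ‖SS (M + 1) w‖ ^ 2 ≤ TT J w := by
    unfold TT
    exact Finset.sum_le_sum_of_subset_of_nonneg (Finset.range_mono hmJ)
      fun _ _ _ => by positivity
  have h17 := (h15 m).trans ((Finset.sum_le_sum h7).trans h16)
  have h18 : (J : ℝ) / 8 ≤ m := by
    have : (J : ℝ) ≤ 8 * m := by exact_mod_cast hm2
    linarith
  have h19 : ((J : ℝ) / 8) ^ 3 ≤ (m : ℝ) ^ 3 := by gcongr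
  have h20 : (J : ℝ) ^ 3 / 6144 = ((J : ℝ) / 8) ^ 3 / 12 := by ring
  rw [h20]
  linarith

/-- the inequality on the unit circle -/
private theorem circle (J : ℕ) (hJ : 4 ≤ J) (w : ℂ) (hw : ‖w‖ = 1) :
    ‖1 - w‖ ≤ Real.exp (18432 / (J : ℝ) ^ 3 * TT J w - (LL J w).re) := by
  have hJ1 : 1 ≤ J := by omega
  have hJ0 : (0 : ℝ) < J := by exact_mod_cast hJ1
  have hJ3 : (0 : ℝ) < (J : ℝ) ^ 3 := by positivity
  by_cases hw1 : w = 1
  · subst hw1
    simp only [sub_self, norm_zero]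
    exact (Real.exp_pos _).le
  have hpos : 0 < ‖1 - w‖ := by
    rw [norm_pos_iff]
    exact fun h => hw1 (by linear_combination -h)
  by_cases hn : (J : ℝ) * ‖1 - w‖ ≤ 4
  · refine (near_cl J hJ1 w hw.le hn).trans (Real.exp_le_exp.2 ?_)
    have h1 := TT_near w hw J hJ hn
    have h2 : (3 : ℝ) ≤ 18432 / (J : ℝ) ^ 3 * TT J w := by
      rw [div_mul_eq_mul_div, le_div_iff₀ hJ3]
      linarith
    linarith
  · rw [not_le] at hn
    refine (far_cl J hJ1 w hw.le hw1).trans (Real.exp_le_exp.2 ?_)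
    have h1 := TT_far w hw J hJ1 hn
    have h3 : (0 : ℝ) ≤ TT J w := by
      unfold TT
      positivity
    have h2 : 4 / ((J : ℝ) ^ 2 * ‖1 - w‖ ^ 2) ≤ 18432 / (J : ℝ) ^ 3 * TT J w := by
      rw [div_mul_eq_mul_div, div_le_div_iff₀ (by positivity) hJ3]
      have h4 : (J : ℝ) ^ 2 * J ≤ (J : ℝ) ^ 2 * (‖1 - w‖ ^ 2 * TT J w) := by gcongr
      have h5 : (0 : ℝ) ≤ (J : ℝ) ^ 2 * (‖1 - w‖ ^ 2 * TT J w) := by positivity
      nlinarith
    linarith

/-- the coefficients -/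
private def cc (J j : ℕ) : ℝ :=
  (1 : ℝ) / (j + 1) - (j + 1) / (J : ℝ) ^ 2 -
    18432 / (J : ℝ) ^ 3 * (((J : ℝ) - 1 - j) * ((J : ℝ) - j))

private def PP (J : ℕ) (w : ℂ) : ℂ :=
  ∑ j ∈ Finset.range J, ((cc J j : ℝ) : ℂ) * w ^ (j + 1)

private theorem PP_eq (J : ℕ) (w : ℂ) : PP J w = LL J w - ((18432 / (J : ℝ) ^ 3 : ℝ) : ℂ) *
    ∑ j ∈ Finset.range J, ((((J : ℝ) - 1 - j) * ((J : ℝ) - j) : ℝ) : ℂ) * w ^ (j + 1) := by
  unfold PP LL cc
  rw [Finset.mul_sum, ← Finset.sum_sub_distrib]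
  exact Finset.sum_congr rfl fun j _ => by push_cast; ring

private theorem disc (J : ℕ) (hJ : 4 ≤ J) (w : ℂ) (hw : ‖w‖ ≤ 1) :
    ‖1 - w‖ ≤ Real.exp (18432 / (J : ℝ) - (PP J w).re) := by
  have hJ1 : 1 ≤ J := by omega
  have hJ0 : (0 : ℝ) < J := by exact_mod_cast hJ1
  have hd : DiffContOnCl ℂ (fun z : ℂ => (1 - z) * Complex.exp (PP J z)) (Metric.ball 0 1) := by
    apply Differentiable.diffContOnCl
    unfold PP
    fun_prop
  have hfr : ∀ z ∈ frontier (Metric.ball (0 : ℂ) 1),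
      ‖(1 - z) * Complex.exp (PP J z)‖ ≤ Real.exp (18432 / (J : ℝ)) := by
    intro z hz
    rw [frontier_ball (0 : ℂ) one_ne_zero] at hz
    have hz1 : ‖z‖ = 1 := by simpa using hz
    rw [norm_mul, Complex.norm_exp]
    have h1 := circle J hJ z hz1
    have h2 : 18432 / (J : ℝ) ^ 3 * TT J z - (LL J z).re ≤ 18432 / (J : ℝ) - (PP J z).re := by
      rw [PP_eq, Complex.sub_re, Complex.re_ofReal_mul, TT_eq z hz1]
      have h3 : 18432 / (J : ℝ) ^ 3 * ((J : ℝ) * (J + 1) / 2) ≤ 18432 / (J : ℝ) := by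
        rw [div_mul_eq_mul_div, div_le_div_iff₀ (by positivity) hJ0]
        have hJ2 : (1 : ℝ) ≤ J := by exact_mod_cast hJ1
        have h4 : (J : ℝ) * (J + 1) / 2 ≤ (J : ℝ) ^ 2 := by nlinarith
        have h5 : 18432 * ((J : ℝ) * (J + 1) / 2) * J ≤ 18432 * (J : ℝ) ^ 2 * J := by gcongr
        nlinarith
      nlinarith
    calc ‖1 - z‖ * Real.exp (PP J z).re
        ≤ Real.exp (18432 / (J : ℝ) - (PP J z).re) * Real.exp (PP J z).re := by
          gcongr
          exact h1.trans (Real.exp_le_exp.2 h2)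
      _ = Real.exp (18432 / (J : ℝ)) := by
          rw [← Real.exp_add, sub_add_cancel]
  have hcl : w ∈ closure (Metric.ball (0 : ℂ) 1) := by
    rw [closure_ball (0 : ℂ) one_ne_zero]
    simpa using hw
  have h6 := Complex.norm_le_of_forall_mem_frontier_norm_le Metric.isBounded_ball hd hfr hcl
  simp only [norm_mul, Complex.norm_exp] at h6
  rw [Real.exp_sub, le_div_iff₀ (Real.exp_pos _)]
  exact h6

theorem hMAJ : StMAJ := by
  refine ⟨36864, by norm_num, ?_⟩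
  intro K hK
  by_cases hK1 : K = 1
  · subst hK1
    refine ⟨fun _ => 0, by norm_num, fun _ => by norm_num, ?_⟩
    intro w hw
    simp only [zero_div, Complex.ofReal_zero, zero_mul, Finset.sum_const_zero, Complex.zero_re,
      sub_zero, Nat.cast_one, div_one]
    have h1 : ‖1 - w‖ ≤ 2 := (norm_sub_le _ _).trans (by rw [norm_one]; linarith)
    have h2 := Real.add_one_le_exp (36864 : ℝ)
    linarith
  · have hJ : 4 ≤ 2 * K := by omega
    have hJ1 : 1 ≤ 2 * K := by omega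
    have hJ0 : (0 : ℝ) < ((2 * K : ℕ) : ℝ) := by exact_mod_cast hJ1
    have hK0 : (0 : ℝ) < (K : ℝ) := by exact_mod_cast hK
    refine ⟨fun j => if 1 ≤ j ∧ j ≤ 2 * K then (j : ℝ) * cc (2 * K) (j - 1) else 0,
      by norm_num, ?_, ?_⟩
    · intro j
      dsimp only
      split_ifs with h
      · obtain ⟨h1, h2⟩ := h
        obtain ⟨i, rfl⟩ : ∃ i, j = i + 1 := ⟨j - 1, by omega⟩
        rw [Nat.add_sub_cancel]
        generalize hJd : 2 * K = J at *
        have hiJ : (i : ℝ) + 1 ≤ J := by exact_mod_cast h2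
        have hi0 : (0 : ℝ) ≤ i := Nat.cast_nonneg i
        unfold cc
        push_cast
        have h3 : ((i : ℝ) + 1) * (1 / ((i : ℝ) + 1) - (i + 1) / (J : ℝ) ^ 2 -
            18432 / (J : ℝ) ^ 3 * (((J : ℝ) - 1 - i) * ((J : ℝ) - i))) =
            1 - ((i : ℝ) + 1) ^ 2 / (J : ℝ) ^ 2 -
            18432 * (((i : ℝ) + 1) * (((J : ℝ) - 1 - i) * ((J : ℝ) - i))) / (J : ℝ) ^ 3 := by
          field_simp
        rw [h3]
        have h4 : (0 : ℝ) ≤ ((i : ℝ) + 1) ^ 2 / (J : ℝ) ^ 2 := by positivity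
        have h5 : ((i : ℝ) + 1) ^ 2 / (J : ℝ) ^ 2 ≤ 1 := by
          rw [div_le_one (by positivity)]
          gcongr
        have hA : (0 : ℝ) ≤ (J : ℝ) - 1 - i := by linarith
        have hB : (0 : ℝ) ≤ (J : ℝ) - i := by linarith
        have h6 : (0 : ℝ) ≤ 18432 * (((i : ℝ) + 1) * (((J : ℝ) - 1 - i) * ((J : ℝ) - i))) /
            (J : ℝ) ^ 3 := by positivity
        have h7 : 18432 * (((i : ℝ) + 1) * (((J : ℝ) - 1 - i) * ((J : ℝ) - i))) /
            (J : ℝ) ^ 3 ≤ 18432 := by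
          rw [div_le_iff₀ (by positivity)]
          have h8 : ((i : ℝ) + 1) * (((J : ℝ) - 1 - i) * ((J : ℝ) - i)) ≤ J * (J * J) := by
            gcongr
            · linarith
            · linarith
          nlinarith
        rw [abs_le]
        constructor <;> linarith
      · norm_num
    · intro w hw
      have h1 := disc (2 * K) hJ w hw
      have h2 : ∑ j ∈ Finset.Icc 1 (2 * K), ((((if 1 ≤ j ∧ j ≤ 2 * K then
          (j : ℝ) * cc (2 * K) (j - 1) else 0) / j : ℝ)) : ℂ) * w ^ j = PP (2 * K) w := by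
        have h4 : Finset.Icc 1 (2 * K) = Finset.Ico 1 (2 * K + 1) := by
          ext x; simp only [Finset.mem_Icc, Finset.mem_Ico]; omega
        rw [h4, Finset.sum_Ico_eq_sum_range]
        unfold PP
        refine Finset.sum_congr (by simp) fun j hj => ?_
        have hj' : j < 2 * K := by simpa using hj
        rw [if_pos ⟨by omega, by omega⟩, show 1 + j - 1 = j by omega, add_comm 1 j]
        have hj0 : ((j + 1 : ℕ) : ℝ) ≠ 0 := Nat.cast_ne_zero.2 (by omega)
        rw [mul_div_assoc, mul_div_cancel₀ _ hj0]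
      dsimp only
      rw [h2]
      refine h1.trans (Real.exp_le_exp.2 ?_)
      have h3 : (18432 : ℝ) / ((2 * K : ℕ) : ℝ) ≤ 36864 / K := by
        rw [div_le_div_iff₀ hJ0 hK0]
        push_cast
        nlinarith
      linarith

end

end Pool.Agent.Helper7.FC
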